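import Pool.Agent.Helper53.SL.St2

/-!
# Project SM, module RAT: the limit power series is rational
-/

set_option autoImplicit false

open Polynomial Filter Topology MeasureTheory Set
open Pool.Agent.Helper53.SL

noncomputable section

namespace Pool.Agent.Helper81.SLM

theorem sh_pow {K : Type} [CommRing K] (x : ℕ → K) (i k : ℕ) : ((sh K) ^ i) x k = x (k + i) := by
  induction i generalizing k with
  | zero => simp
  | succ n ih =>
    rw [pow_succ', Module.End.mul_apply]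
    show (((sh K) ^ n) x) (k + 1) = _
    rw [ih]
    congr 1; ring

theorem aeval_sh {K : Type} [CommRing K] (f : K[X]) (x : ℕ → K) (k : ℕ) :
    (aeval (sh K) f x) k = ∑ i ∈ Finset.range (f.natDegree + 1), f.coeff i * x (k + i) := by
  rw [aeval_eq_sum_range]
  simp [LinearMap.sum_apply, sh_pow]

/-- the numerator -/
def num (F : ℕ → ℤ) (D : ℤ[X]) (d : ℕ) : ℤ[X] :=
  ∑ k ∈ Finset.range d, Polynomial.C (∑ ij ∈ Finset.HasAntidiagonal.antidiagonal k, F ij.1 * D.coeff ij.2) * X ^ k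

theorem coeff_zero_rec (m : ℤ[X]) (F : ℕ → ℤ) (h : aeval (sh ℤ) m F = 0) (k : ℕ) (hk : m.natDegree ≤ k) :
    ∑ ij ∈ Finset.HasAntidiagonal.antidiagonal k, F ij.1 * m.reverse.coeff ij.2 = 0 := by
  set d := m.natDegree with hd
  have h1 : ∑ ij ∈ Finset.HasAntidiagonal.antidiagonal k, F ij.1 * m.reverse.coeff ij.2 =
      ∑ j ∈ Finset.range (k + 1), F (k - j) * m.reverse.coeff j := by
    rw [← Finset.Nat.sum_antidiagonal_swap]
    exact Finset.Nat.sum_antidiagonal_eq_sum_range_succ (fun a b => F b * m.reverse.coeff a) k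
  rw [h1]
  have h2 : ∑ j ∈ Finset.range (k + 1), F (k - j) * m.reverse.coeff j =
      ∑ j ∈ Finset.range (d + 1), F (k - j) * m.reverse.coeff j := by
    symm
    refine Finset.sum_subset (Finset.range_subset_range.2 (by omega)) fun j _ hj => ?_
    rw [Finset.mem_range, not_lt] at hj
    have : m.reverse.coeff j = 0 := by
      apply coeff_eq_zero_of_natDegree_lt
      have := reverse_natDegree_le m
      omega
    rw [this, mul_zero]
  rw [h2]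
  have h3 := congrFun h (k - d)
  rw [aeval_sh, ← Finset.sum_range_reflect] at h3
  simp only [Pi.zero_apply] at h3
  rw [← hd] at h3
  rw [← h3]
  refine Finset.sum_congr rfl fun j hj => ?_
  rw [Finset.mem_range] at hj
  have h4 : m.reverse.coeff j = m.coeff (d - j) := by
    rw [coeff_reverse, ← hd, revAt_le (by omega)]
  rw [h4, mul_comm]
  congr 2 <;> congr 1 <;> omega

theorem hasSum_poly (D : ℤ[X]) (z : ℂ) : HasSum (fun j : ℕ => (D.coeff j : ℂ) * z ^ j) (aeval z D) := by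
  have h1 : aeval z D = ∑ j ∈ Finset.range (D.natDegree + 1), (D.coeff j : ℂ) * z ^ j := by
    rw [aeval_eq_sum_range]
    exact Finset.sum_congr rfl fun j _ => by rw [zsmul_eq_mul]
  rw [h1]
  refine hasSum_sum_of_ne_finset_zero fun j hj => ?_
  rw [Finset.mem_range, not_lt] at hj
  rw [coeff_eq_zero_of_natDegree_lt (by omega)]
  simp

theorem num_eq (F : ℕ → ℤ) (D : ℤ[X]) (d : ℕ)
    (h : ∀ k, d ≤ k → ∑ ij ∈ Finset.HasAntidiagonal.antidiagonal k, F ij.1 * D.coeff ij.2 = 0) (z w : ℂ)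
    (hs : Summable fun n : ℕ => ‖(F n : ℂ) * z ^ n‖) (hw : HasSum (fun n : ℕ => (F n : ℂ) * z ^ n) w) :
    w * aeval z D = aeval z (num F D d) := by
  have hD := hasSum_poly D z
  have hDs : Summable fun j : ℕ => ‖(D.coeff j : ℂ) * z ^ j‖ := by
    refine summable_of_ne_finset_zero (s := Finset.range (D.natDegree + 1)) fun j hj => ?_
    rw [Finset.mem_range, not_lt] at hj
    rw [coeff_eq_zero_of_natDegree_lt (by omega)]
    simp
  have h1 := tsum_mul_tsum_eq_tsum_sum_antidiagonal_of_summable_norm hs hDs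
  rw [hw.tsum_eq, hD.tsum_eq] at h1
  rw [h1]
  have h2 : ∀ k : ℕ, ∑ kl ∈ Finset.HasAntidiagonal.antidiagonal k, (F kl.1 : ℂ) * z ^ kl.1 * ((D.coeff kl.2 : ℂ) * z ^ kl.2) =
      ((∑ ij ∈ Finset.HasAntidiagonal.antidiagonal k, F ij.1 * D.coeff ij.2 : ℤ) : ℂ) * z ^ k := by
    intro k
    push_cast
    rw [Finset.sum_mul]
    refine Finset.sum_congr rfl fun ij hij => ?_
    rw [← Finset.HasAntidiagonal.mem_antidiagonal.1 hij, pow_add]
    ring
  simp only [h2]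
  rw [tsum_eq_sum (s := Finset.range d)]
  · unfold num
    rw [map_sum]
    refine Finset.sum_congr rfl fun k _ => ?_
    rw [map_mul, map_pow, aeval_X, aeval_C]
    simp
  · intro k hk
    rw [Finset.mem_range, not_lt] at hk
    rw [h k hk]
    simp

theorem num_coeff (F : ℕ → ℤ) (D : ℤ[X]) (d : ℕ) (hd : 0 < d) : (num F D d).coeff 0 = F 0 * D.coeff 0 := by
  unfold num
  rw [finsetSum_coeff, Finset.sum_eq_single_of_mem 0 (Finset.mem_range.2 hd)]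
  · simp
  · intro k _ hk
    rw [coeff_C_mul, coeff_X_pow, if_neg (Ne.symm hk), mul_zero]

theorem uf_lim (U : Ultrafilter ℝ) (u : ℝ → ℝ) (M : ℝ) (h : ∀ᶠ τ in (U : Filter ℝ), |u τ| ≤ M) :
    ∃ l : ℝ, Tendsto u (U : Filter ℝ) (𝓝 l) := by
  have h1 : (Ultrafilter.map u U : Filter ℝ) ≤ 𝓟 (Icc (-M) M) := by
    rw [le_principal_iff]
    show u ⁻¹' (Icc (-M) M) ∈ (U : Filter ℝ)
    filter_upwards [h] with τ hτ
    exact abs_le.1 hτ
  obtain ⟨l, _, hl⟩ := isCompact_Icc.ultrafilter_le_nhds _ h1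
  exact ⟨l, hl⟩

theorem toe_sq (b : ℕ → ℝ) (M : ℝ) (h : Toe b M) (n : ℕ) : b n ^ 2 ≤ M := by
  have h1 := h (fun k => if k = 0 then 1 else 0) (n + 1)
  have h2 : ∀ k : ℕ, ∑ i ∈ Finset.range (k + 1), b i * (if k - i = 0 then (1 : ℝ) else 0) = b k := by
    intro k
    rw [Finset.sum_eq_single_of_mem k (Finset.self_mem_range_succ k)]
    · simp
    · intro i hi hik
      rw [Finset.mem_range] at hi
      rw [if_neg (by omega), mul_zero]
  simp only [h2] at h1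
  have h3 : ∑ k ∈ Finset.range (n + 1), (if k = 0 then (1 : ℝ) else 0) ^ 2 = 1 := by
    rw [Finset.sum_eq_single_of_mem 0 (Finset.mem_range.2 (by omega))]
    · simp
    · intro k _ hk
      simp [hk]
  rw [h3, mul_one] at h1
  exact (Finset.single_le_sum (f := fun k => b k ^ 2) (fun i _ => sq_nonneg _)
    (Finset.self_mem_range_succ n)).trans h1

theorem toe_mono (b : ℕ → ℝ) (M M' : ℝ) (hM : M ≤ M') (h : Toe b M) : Toe b M' := fun x N =>
  (h x N).trans (mul_le_mul_of_nonneg_right hM (Finset.sum_nonneg fun _ _ => sq_nonneg _))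

theorem toe_lim (U : Ultrafilter ℝ) (b : ℝ → ℕ → ℝ) (b' : ℕ → ℝ) (M : ℝ)
    (h : ∀ᶠ τ in (U : Filter ℝ), Toe (b τ) M) (hb : ∀ n, Tendsto (fun τ => b τ n) (U : Filter ℝ) (𝓝 (b' n))) :
    Toe b' M := by
  intro x N
  have h1 : Tendsto (fun τ => ∑ n ∈ Finset.range N, (∑ i ∈ Finset.range (n + 1), b τ i * x (n - i)) ^ 2)
      (U : Filter ℝ) (𝓝 (∑ n ∈ Finset.range N, (∑ i ∈ Finset.range (n + 1), b' i * x (n - i)) ^ 2)) :=
    tendsto_finsetSum _ fun n _ => (tendsto_finsetSum _ fun i _ => (hb i).mul_const _).pow 2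
  exact le_of_tendsto h1 (h.mono fun τ hτ => hτ x N)

theorem hRat (h1 : StDet) (h2 : StKro) (h3 : StFat) : StRat := by
  intro B c hacc
  have hNB : (𝓝[≠] c ⊓ 𝓟 {τ : ℝ | 1 < τ ∧ Lev B τ}).NeBot := hacc
  set U : Ultrafilter ℝ := Ultrafilter.of (𝓝[≠] c ⊓ 𝓟 {τ : ℝ | 1 < τ ∧ Lev B τ}) with hUdef
  have hU : (U : Filter ℝ) ≤ 𝓝[≠] c ⊓ 𝓟 {τ : ℝ | 1 < τ ∧ Lev B τ} := Ultrafilter.of_le _
  have hT : ∀ᶠ τ in (U : Filter ℝ), 1 < τ ∧ Lev B τ :=
    (hU.trans inf_le_right) (mem_principal_self _)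
  have hUc : (U : Filter ℝ) ≤ 𝓝 c := (hU.trans inf_le_left).trans nhdsWithin_le_nhds
  have hlim : Tendsto (fun τ : ℝ => τ) (U : Filter ℝ) (𝓝 c) := hUc
  have hc1 : 1 ≤ c := ge_of_tendsto hlim (hT.mono fun τ hτ => hτ.1.le)
  have hτb : ∀ᶠ τ in (U : Filter ℝ), τ ≤ c + 1 :=
    (hlim.eventually (gt_mem_nhds (by linarith : c < c + 1))).mono fun τ hτ => le_of_lt hτ
  -- the data
  have hex : ∀ τ : ℝ, ∃ (f : ℕ → ℤ) (g h : ℕ → ℝ), Lev B τ → f 0 = 1 ∧ Real.exp (-B) ≤ h 0 ∧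
      (∀ n : ℕ, ∑ i ∈ Finset.range (n + 1), h i * (f (n - i) : ℝ) = g n) ∧ Toe h 1 ∧ Toe g ((1 + τ) ^ 2) ∧
      (∀ r : ℝ, 0 < r → r < 1 → ∀ n : ℕ, |(f n : ℝ)| * r ^ n ≤ (1 + τ) * Real.exp (Har B r)) ∧
      ∀ z : ℂ, ‖z‖ < 1 → ∃ w : ℂ, HasSum (fun n : ℕ => (f n : ℂ) * z ^ n) w ∧
        ‖1 - τ * z‖ * Real.exp (-Har B ‖z‖) ≤ ‖w‖ ∧ ‖w‖ ≤ ‖1 - τ * z‖ * Real.exp (Har B ‖z‖) := by
    intro τ
    by_cases hd : Lev B τ
    · obtain ⟨f, g, h, hfgh⟩ := hd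
      exact ⟨f, g, h, fun _ => hfgh⟩
    · exact ⟨0, 0, 0, fun h => absurd h hd⟩
  choose f g h hfgh using hex
  have hd1 : ∀ᶠ τ in (U : Filter ℝ), f τ 0 = 1 ∧ Real.exp (-B) ≤ h τ 0 ∧ Toe (h τ) 1 ∧
      Toe (g τ) ((2 + c) ^ 2) := by
    filter_upwards [hT, hτb] with τ hτ hb
    obtain ⟨a1, a2, _, a4, a5, _⟩ := hfgh τ hτ.2
    refine ⟨a1, a2, a4, toe_mono _ _ _ ?_ a5⟩
    exact pow_le_pow_left₀ (by linarith [hτ.1]) (by linarith) 2
  have hd2 : ∀ᶠ τ in (U : Filter ℝ), ∀ n : ℕ, ∑ i ∈ Finset.range (n + 1), h τ i * (f τ (n - i) : ℝ) = g τ n :=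
    hT.mono fun τ hτ => (hfgh τ hτ.2).2.2.1
  have hd3 : ∀ᶠ τ in (U : Filter ℝ), ∀ r : ℝ, 0 < r → r < 1 → ∀ n : ℕ,
      |(f τ n : ℝ)| * r ^ n ≤ (2 + c) * Real.exp (Har B r) := by
    filter_upwards [hT, hτb] with τ hτ hb
    intro r hr hr1 n
    refine ((hfgh τ hτ.2).2.2.2.2.2.1 r hr hr1 n).trans ?_
    exact mul_le_mul_of_nonneg_right (by linarith) (Real.exp_pos _).le
  have hd4 : ∀ᶠ τ in (U : Filter ℝ), ∀ z : ℂ, ‖z‖ < 1 → ∃ w : ℂ, HasSum (fun n : ℕ => (f τ n : ℂ) * z ^ n) w ∧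
      ‖1 - τ * z‖ * Real.exp (-Har B ‖z‖) ≤ ‖w‖ ∧ ‖w‖ ≤ ‖1 - τ * z‖ * Real.exp (Har B ‖z‖) :=
    hT.mono fun τ hτ => (hfgh τ hτ.2).2.2.2.2.2.2
  -- limits
  have hFex : ∀ n : ℕ, ∃ F : ℤ, ∀ᶠ τ in (U : Filter ℝ), f τ n = F := by
    intro n
    obtain ⟨M, hM⟩ := exists_int_gt ((2 + c) * Real.exp (Har B (1 / 2)) * 2 ^ n)
    refine Pool.Agent.Helper96.Salem.uf_const U _ M ?_
    filter_upwards [hd3] with τ hτ
    have h4 := hτ (1 / 2) (by norm_num) (by norm_num) n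
    have h5 : |(f τ n : ℝ)| ≤ M := by
      have h6 : |(f τ n : ℝ)| = |(f τ n : ℝ)| * (1 / 2) ^ n * 2 ^ n := by
        rw [mul_assoc, ← mul_pow]; norm_num
      rw [h6]
      exact (mul_le_mul_of_nonneg_right h4 (by positivity)).trans hM.le
    have h11 : ((|f τ n| : ℤ) : ℝ) ≤ (M : ℝ) := by rw [Int.cast_abs]; exact h5
    exact_mod_cast h11
  choose F hF using hFex
  have hhex : ∀ n : ℕ, ∃ l : ℝ, Tendsto (fun τ => h τ n) (U : Filter ℝ) (𝓝 l) := by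
    intro n
    refine uf_lim U _ 1 ?_
    filter_upwards [hd1] with τ hτ
    have := toe_sq _ _ hτ.2.2.1 n
    exact abs_le_one_iff_mul_self_le_one.2 (by nlinarith)
  choose h' hh' using hhex
  have hgex : ∀ n : ℕ, ∃ l : ℝ, Tendsto (fun τ => g τ n) (U : Filter ℝ) (𝓝 l) := by
    intro n
    refine uf_lim U _ (2 + c) ?_
    filter_upwards [hd1] with τ hτ
    have := toe_sq _ _ hτ.2.2.2 n
    exact abs_le_of_sq_le_sq this (by linarith)
  choose g' hg' using hgex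
  have hF0 : F 0 = 1 := by
    obtain ⟨τ, h4, h5⟩ := ((hF 0).and hd1).exists
    rw [← h4, h5.1]
  have hh0 : Real.exp (-B) ≤ h' 0 := ge_of_tendsto (hh' 0) (hd1.mono fun τ hτ => hτ.2.1)
  have hh0' : h' 0 ≠ 0 := ne_of_gt (lt_of_lt_of_le (Real.exp_pos (-B)) hh0)
  have hconv : ∀ n : ℕ, ∑ i ∈ Finset.range (n + 1), h' i * (F (n - i) : ℝ) = g' n := by
    intro n
    have h4 : Tendsto (fun τ => ∑ i ∈ Finset.range (n + 1), h τ i * (f τ (n - i) : ℝ)) (U : Filter ℝ)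
        (𝓝 (∑ i ∈ Finset.range (n + 1), h' i * (F (n - i) : ℝ))) := by
      refine tendsto_finsetSum _ fun i _ => (hh' i).mul ?_
      refine tendsto_const_nhds.congr' ?_
      filter_upwards [hF (n - i)] with τ hτ
      rw [hτ]
    have h5 : Tendsto (fun τ => ∑ i ∈ Finset.range (n + 1), h τ i * (f τ (n - i) : ℝ)) (U : Filter ℝ)
        (𝓝 (g' n)) := (hg' n).congr' (hd2.mono fun τ hτ => (hτ n).symm)
    exact tendsto_nhds_unique h4 h5
  have hToeh : Toe h' ((2 + c) ^ 2) := by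
    refine toe_mono _ 1 _ (by nlinarith) (toe_lim U h h' 1 (hd1.mono fun τ hτ => hτ.2.2.1) hh')
  have hToeg : Toe g' ((2 + c) ^ 2) := toe_lim U g g' _ (hd1.mono fun τ hτ => hτ.2.2.2) hg'
  -- rationality
  obtain ⟨p, hp⟩ := h1 F g' h' _ hh0' hconv hToeh hToeg
  obtain ⟨b, hb0, hb⟩ := h2 (fun k => (F k : ℚ)) ⟨p, fun n hn => hp n hn⟩
  obtain ⟨m, hm, hmF⟩ := h3 F ⟨b, hb0, hb⟩
  have hmd : 0 < m.natDegree := by
    rcases Nat.eq_zero_or_pos m.natDegree with h4 | h4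
    · exfalso
      rw [hm.natDegree_eq_zero.1 h4] at hmF
      simp only [map_one, Module.End.one_apply] at hmF
      have := congrFun hmF 0
      rw [hF0] at this
      simp at this
    · exact h4
  have hD0 : m.reverse.coeff 0 = 1 := by
    rw [coeff_zero_reverse]
    exact hm
  refine ⟨num F m.reverse m.natDegree, m.reverse, ?_, hD0, ?_⟩
  · rw [num_coeff _ _ _ hmd, hF0, hD0]; rfl
  intro z hz
  -- convergence
  have hr0 : 0 ≤ ‖z‖ := norm_nonneg z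
  set r : ℝ := (1 + ‖z‖) / 2 with hr
  have hrp : 0 < r := by rw [hr]; linarith
  have hr1 : r < 1 := by rw [hr]; linarith
  have hzr : ‖z‖ < r := by rw [hr]; linarith
  set K : ℝ := (2 + c) * Real.exp (Har B r) with hK
  have hbd : ∀ᶠ τ in (U : Filter ℝ), ∀ n : ℕ, ‖(f τ n : ℂ) * z ^ n‖ ≤ K * (‖z‖ / r) ^ n := by
    filter_upwards [hd3] with τ hτ
    intro n
    have h4 := hτ r hrp hr1 n
    rw [norm_mul, norm_pow, div_pow, Complex.norm_intCast]
    have h5 : |(f τ n : ℝ)| * ‖z‖ ^ n = |(f τ n : ℝ)| * r ^ n * (‖z‖ ^ n / r ^ n) := by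
      field_simp
    rw [h5]
    exact mul_le_mul_of_nonneg_right h4 (by positivity)
  have hsum : Summable fun n : ℕ => K * (‖z‖ / r) ^ n :=
    (summable_geometric_of_lt_one (by positivity) ((div_lt_one hrp).2 hzr)).mul_left _
  have hbdF : ∀ n : ℕ, ‖(F n : ℂ) * z ^ n‖ ≤ K * (‖z‖ / r) ^ n := by
    intro n
    obtain ⟨τ, h4, h5⟩ := ((hF n).and hbd).exists
    rw [← h4]
    exact h5 n
  have hsF : Summable fun n : ℕ => ‖(F n : ℂ) * z ^ n‖ :=
    Summable.of_nonneg_of_le (fun _ => norm_nonneg _) hbdF hsum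
  have hsF' : Summable fun n : ℕ => (F n : ℂ) * z ^ n := hsF.of_norm
  have hwlim : Tendsto (fun τ => ∑' n, (f τ n : ℂ) * z ^ n) (U : Filter ℝ) (𝓝 (∑' n, (F n : ℂ) * z ^ n)) := by
    refine tendsto_tsum_of_dominated_convergence hsum (fun n => ?_) hbd
    refine tendsto_const_nhds.congr' ?_
    filter_upwards [hF n] with τ hτ
    rw [hτ]
  set w : ℂ := ∑' n, (F n : ℂ) * z ^ n with hw
  have hnum := num_eq F m.reverse m.natDegree (fun k hk => coeff_zero_rec m F hmF k hk) z w hsF hsF'.hasSum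
  have hτz : Tendsto (fun τ : ℝ => ‖1 - (τ : ℂ) * z‖) (U : Filter ℝ) (𝓝 ‖1 - (c : ℂ) * z‖) := by
    have h4 : Tendsto (fun τ : ℝ => (τ : ℂ)) (U : Filter ℝ) (𝓝 (c : ℂ)) :=
      (Complex.continuous_ofReal.tendsto c).comp hlim
    exact ((h4.mul_const z).const_sub 1).norm
  have hlow : ‖1 - c * z‖ * Real.exp (-Har B ‖z‖) ≤ ‖w‖ := by
    refine le_of_tendsto_of_tendsto (hτz.mul_const _) hwlim.norm ?_
    filter_upwards [hd4] with τ hτ
    obtain ⟨w', h4, h5, _⟩ := hτ z hz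
    rw [h4.tsum_eq]
    exact h5
  have hupp : ‖w‖ ≤ ‖1 - c * z‖ * Real.exp (Har B ‖z‖) := by
    refine le_of_tendsto_of_tendsto hwlim.norm (hτz.mul_const _) ?_
    filter_upwards [hd4] with τ hτ
    obtain ⟨w', h4, _, h5⟩ := hτ z hz
    rw [h4.tsum_eq]
    exact h5
  rw [← hnum, norm_mul]
  exact ⟨mul_le_mul_of_nonneg_right hlow (norm_nonneg _), mul_le_mul_of_nonneg_right hupp (norm_nonneg _)⟩

end Pool.Agent.Helper81.SLM

end
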